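import Pool.Agent.Lib.H31J.Main

/-!
# MP_3a87b6_an: the two parameters of `PJ.final` are hyperbolic (attracting cycle of period 18)
-/

set_option autoImplicit false

namespace PJ

open Set Filter Topology

/-- `z ↦ lam * exp z` has a cycle of minimal period `q`, attracting, and every point outside the Julia set
is attracted to it. -/
def HypQ (q : ℕ) (lam : ℂ) : Prop :=
  ∃ y : ℂ, Function.minimalPeriod (fun w : ℂ => lam * Complex.exp w) y = q ∧
    ‖deriv ((fun w : ℂ => lam * Complex.exp w)^[q]) y‖ < 1 ∧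
    ∀ z : ℂ, z ∉ Jul lam → ∃ k : ℕ,
      Tendsto (fun n : ℕ => (fun w : ℂ => lam * Complex.exp w)^[q * n + k] z) atTop (𝓝 y)

theorem Par.hypQ {C : Comb} (P : Par C) (hC : C.Good) : HypQ (C.m + 2) P.lam := by
  set F := P.f^[C.m + 2] with hF
  set H : Set ℂ := {z : ℂ | z.re ≤ -P.Lam / 2} with hH
  have hHc : IsClosed H := isClosed_le Complex.continuous_re continuous_const
  have hmaps : MapsTo F H H := fun z hz => (P.julf_H hC hz).1
  have hcontr : ContractingWith (1 / 2) (hmaps.restrict F H H) := by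
    refine ⟨by rw [div_lt_one (by norm_num)]; norm_num, ?_⟩
    apply LipschitzWith.of_dist_le_mul
    intro a b
    have h := P.julf_lip hC a.2 b.2
    rw [Subtype.dist_eq, Subtype.dist_eq, dist_eq_norm, dist_eq_norm]
    have : (((1 / 2 : NNReal)) : ℝ) = 1 / 2 := by norm_num
    rw [this]
    exact h
  have hL := P.Lam_ge'
  have hx0 : ((-P.Lam : ℝ) : ℂ) ∈ H := by
    show ((-P.Lam : ℝ) : ℂ).re ≤ -P.Lam / 2
    rw [Complex.ofReal_re]; linarith
  obtain ⟨y, hy, hfix, -⟩ := ContractingWith.exists_fixedPoint' hHc.isComplete hmaps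
    hcontr hx0 (edist_ne_top _ _)
  have hfix' : P.f^[C.m + 2] y = y := hfix
  have hyH : y.re ≤ -P.Lam / 2 := hy
  -- the orbit of `y` is outside the half plane at the times `1, ..., m + 1`
  have hout : ∀ l, l ≤ C.m → -P.Lam / 2 < (P.f^[l + 1] y).re := by
    intro l hl
    obtain ⟨w, hw, hgw⟩ := P.f_H hC hyH
    have hwK : w ∈ P.K := Or.inl hw
    have hwU : w ∈ P.U := P.K_sub_U hwK
    rcases Nat.eq_zero_or_pos l with h0 | h0
    · subst h0
      have h1 : P.f^[0 + 1] y = P.f y := rfl
      rw [h1]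
      have h2 : ‖P.f y‖ ≤ ‖P.lam‖ * 1 := by
        unfold Par.f
        rw [norm_mul, Complex.norm_exp]
        apply mul_le_mul_of_nonneg_left _ (norm_nonneg _)
        rw [Real.exp_le_one_iff]
        linarith
      have h3 := (P.lam_norm hC).2
      have h4 := P.Lam_ge hC le_rfl hC.m_pos
      rw [P.r1] at h4
      have h5 := P.R_ge
      have h6 := Complex.abs_re_le_norm (P.f y)
      have h7 := abs_le.1 (h6.trans h2)
      linarith [h7.1]
    · have hit : P.f^[l + 1] y = P.g l w := by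
        rw [Function.iterate_succ_apply, ← hgw]
        exact P.julf_gw hC hwU l hl
      rw [hit]
      have h1 := P.g_re hC h0 hl hwU
      have h2 := P.r_ge h0
      have h3 := P.R_ge
      linarith
  have hper : Function.IsPeriodicPt P.f (C.m + 2) y := hfix'
  have hpos : 0 < Function.minimalPeriod P.f y := hper.minimalPeriod_pos (by omega)
  have hmin : Function.minimalPeriod P.f y = C.m + 2 := by
    have hle : Function.minimalPeriod P.f y ≤ C.m + 2 := hper.minimalPeriod_le (by omega)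
    by_contra hne
    have hlt : Function.minimalPeriod P.f y < C.m + 2 := lt_of_le_of_ne hle hne
    have h1 := hout (Function.minimalPeriod P.f y - 1) (by omega)
    rw [Nat.sub_add_cancel hpos] at h1
    have h2 : P.f^[Function.minimalPeriod P.f y] y = y :=
      Function.isPeriodicPt_minimalPeriod P.f y
    rw [h2] at h1
    linarith
  refine ⟨y, hmin, ?_, ?_⟩
  · have h1 := (P.julf_deriv (C.m + 2) y).deriv
    have h2 := (P.julf_H hC hyH).2.2
    show ‖deriv (P.f^[C.m + 2]) y‖ < 1
    rw [h1]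
    linarith
  · intro z hz
    have hzJ : z ∉ P.JJ := fun h => hz (P.JJ_sub_Jul hC h)
    obtain ⟨N, hN⟩ : ∃ N : ℕ, (P.f^[N] z).re < -P.Lam / 2 := by
      have h1 : ∃ n : ℕ, P.f^[n] z ∈ P.A := by
        by_contra hcon
        apply hzJ
        intro n hn
        exact hcon ⟨n, hn⟩
      obtain ⟨n, hn⟩ := h1
      obtain ⟨k, hk⟩ := P.basin hC hn
      refine ⟨k + n, ?_⟩
      rw [Function.iterate_add_apply]
      exact hk
    refine ⟨N, ?_⟩
    have hk : ∀ k : ℕ, ∀ z ∈ H, F^[k] z ∈ H ∧ ‖F^[k] z - y‖ ≤ (1 / 2) ^ k * ‖z - y‖ := by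
      intro k
      induction k with
      | zero => intro z hz; simpa using hz
      | succ k ih =>
        intro z hz
        obtain ⟨i1, i2⟩ := ih z hz
        rw [Function.iterate_succ_apply']
        refine ⟨hmaps i1, ?_⟩
        have h1 := P.julf_lip hC i1 hy
        rw [← hF] at h1
        have h9 : F y = y := hfix'
        rw [h9] at h1
        refine h1.trans ?_
        rw [pow_succ]
        linarith
    have e1 : ∀ n : ℕ, P.f^[(C.m + 2) * n + N] z = F^[n] (P.f^[N] z) := by
      intro n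
      rw [Function.iterate_add_apply, Function.iterate_mul]
    show Tendsto (fun n : ℕ => P.f^[(C.m + 2) * n + N] z) atTop (𝓝 y)
    simp_rw [e1]
    rw [tendsto_iff_norm_sub_tendsto_zero]
    have ht : Tendsto (fun k : ℕ => (1 / 2 : ℝ) ^ k * ‖P.f^[N] z - y‖) atTop (𝓝 0) := by
      have := (tendsto_pow_atTop_nhds_zero_of_lt_one (r := (1 / 2 : ℝ)) (by norm_num)
        (by norm_num)).mul_const (‖P.f^[N] z - y‖)
      simpa using this
    exact squeeze_zero (fun n => norm_nonneg _) (fun n => (hk n _ hN.le).2) ht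

theorem analyticH (C : Comb) (hC : C.Good) :
    ∃ (lam : ℂ) (G : Pt → ℂ), Interface C lam G ∧ HypQ (C.m + 2) lam := by
  obtain ⟨P⟩ := exists_par C hC
  obtain ⟨b, hb⟩ := P.exists_base hC
  obtain ⟨G, hG⟩ := P.exists_para hC hb
  refine ⟨P.lam, G, ?_, P.hypQ hC⟩
  exact
    { lam_ne := P.lam_ne hC
      cont := hG.cont
      image := by
        rw [Par.Para.surj P hC hb hG]
        exact Set.Subset.antisymm (P.JJ_sub_Jul hC) (P.Jul_sub_JJ hC)
      fib := Par.Para.fib P hC hb hG
      proper := Par.Para.proper P hC hb hG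
      im_bd := Par.Para.im_bd P hC hG
      re_bd := Par.Para.re_bd P hG
      equiv := hG.equiv
      tail := Par.Para.tail P hC hb hG
      branch := Par.Para.branch P hC hb hG }

/-- The main theorem with both maps hyperbolic. -/
theorem finalH : ∃ a b : ℂ, a ≠ 0 ∧ b ≠ 0 ∧ HypQ 18 a ∧ HypQ 18 b ∧
    Nonempty (↥(Jul a) ≃ₜ ↥(Jul b)) ∧ ¬ ∃ h : ℂ ≃ₜ ℂ, h '' Jul a = Jul b := by
  obtain ⟨lamA, GA, IA, hA⟩ := analyticH combA good_A
  obtain ⟨lamB, GB, IB, hB⟩ := analyticH combB good_B
  obtain ⟨h, hh⟩ := homeoModel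
  exact ⟨lamA, lamB, IA.lam_ne, IB.lam_ne, hA, hB, homeoJ IA IB h hh,
    planar lamA lamB GA GB IA IB⟩

end PJ
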